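import Mathlib
import Pool.Agent.Lib.MP_641f76_ag.Defs
import Pool.Agent.Lib.MP_641f76_ag.GinDefs
import Pool.Agent.Lib.MP_641f76_ag.GinBound

/-!
# MP_641f76_ag, Q1 is answered in the negative

For each `p ≥ 1` there is a graph `G` on `p² + 2p` vertices whose induced paths have at most `7`
vertices, such that, over every field, `reg (gin(J_G)^((2p-1)m)) ≥ (p² + 2p) m` for all `m`;
hence the asymptotic regularity of the symbolic powers of `gin(J_G)` is at least
`(p² + 2p) / (2p - 1)`. For `p ≥ 12` this is larger than `7`, and it is unbounded as `p` grows, so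
the asymptotic regularity of `gin(J_G)` is not bounded by any function of `ℓ`.

The graph consists of two disjoint cliques on `p` vertices each and, for each pair `(a, b)` of a
vertex `a` of the first and a vertex `b` of the second one, a vertex `s_(a,b)` adjacent to `a` and
`b` only. With `w = ∏ x_a ∏ x_b ∏ y_(s_(a,b))`, `w^m` is a minimal generator of
`gin(J_G)^((2p-1)m)`.
-/

namespace Pool.Agent.Results.MP_641f76_ag.AsymptoticRegularityGin

open Pool.Agent.Lib.MP_641f76_ag Filter Topology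

universe u

/-- **Q1 of MP_641f76_ag is false.** -/
theorem result (p : ℕ) (hp : 1 ≤ p) : ∃ G : SimpleGraph (Fin (p ^ 2 + 2 * p)),
    (∃ i j, G.Adj i j) ∧ inducedLength G ≤ 7 ∧
    ∀ (K : Type u) [Field K],
      (∀ m : ℕ, ((((p ^ 2 + 2 * p) * m : ℕ) : ℝ) : EReal) ≤
        regularity (symbolicPower (genericInitialIdeal K G) ((2 * p - 1) * m))) ∧
      (∀ L : EReal, Tendsto (fun m : ℕ =>
          regularity (symbolicPower (genericInitialIdeal K G) m) / ((m : ℝ) : EReal))
        atTop (𝓝 L) → ((((p : ℝ) ^ 2 + 2 * p) / (2 * p - 1) : ℝ) : EReal) ≤ L) ∧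
      (12 ≤ p → ¬ Tendsto (fun m : ℕ =>
          regularity (symbolicPower (genericInitialIdeal K G) m) / ((m : ℝ) : EReal))
        atTop (𝓝 ((inducedLength G : ℝ) : EReal))) := by
  have hcard : Fintype.card (VP p) = p ^ 2 + 2 * p := by
    simp only [VP, Fintype.card_sum, Fintype.card_prod, Fintype.card_fin]
    ring
  let τ : VP p ≃ Fin (p ^ 2 + 2 * p) := Fintype.equivFinOfCardEq hcard
  have hp1 : (1 : ℝ) ≤ p := by exact_mod_cast hp
  have hlim : ∀ (K : Type u) [Field K] (L : EReal), Tendsto (fun m : ℕ =>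
      regularity (symbolicPower (genericInitialIdeal K (GN τ)) m) / ((m : ℝ) : EReal))
        atTop (𝓝 L) → ((((p : ℝ) ^ 2 + 2 * p) / (2 * p - 1) : ℝ) : EReal) ≤ L := by
    intro K _ L h
    have hsub : Tendsto (fun k : ℕ => (2 * p - 1) * (k + 1)) atTop atTop := by
      refine tendsto_atTop_mono (fun k => ?_) tendsto_id
      show k ≤ (2 * p - 1) * (k + 1)
      have : 1 * (k + 1) ≤ (2 * p - 1) * (k + 1) := Nat.mul_le_mul_right _ (by omega)
      omega
    refine ge_of_tendsto (h.comp hsub) (Eventually.of_forall fun k => ?_)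
    show _ ≤ regularity (symbolicPower (genericInitialIdeal K (GN τ)) ((2 * p - 1) * (k + 1))) /
      ((((2 * p - 1) * (k + 1) : ℕ) : ℝ) : EReal)
    have hpos : (0 : ℝ) < (((2 * p - 1) * (k + 1) : ℕ) : ℝ) := by
      have : 0 < (2 * p - 1) * (k + 1) := Nat.mul_pos (by omega) (by omega)
      exact_mod_cast this
    rw [EReal.le_div_iff_mul_le (by exact_mod_cast hpos) (EReal.coe_ne_top _)]
    refine le_trans (le_of_eq ?_) (le_regularity_GN K hp τ (k + 1))
    rw [← EReal.coe_mul]
    congr 1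
    have h2 : ((2 * p - 1 : ℕ) : ℝ) = 2 * p - 1 := by
      rw [Nat.cast_sub (by omega)]
      push_cast
      ring
    push_cast
    rw [h2]
    have h3 : (2 * (p : ℝ) - 1) ≠ 0 := by linarith
    rw [div_mul_eq_mul_div, div_eq_iff h3]
    ring
  refine ⟨GN τ, ⟨τ (.inl ⟨0, hp⟩), τ (.inr (.inr (⟨0, hp⟩, ⟨0, hp⟩))), ?_⟩,
    inducedLength_GN τ, ?_⟩
  · exact (GN_adj τ _ _).mpr rfl
  intro K _
  refine ⟨le_regularity_GN K hp τ, hlim K, ?_⟩
  intro hp12 h
  have h1 := hlim K _ h
  rw [EReal.coe_le_coe_iff] at h1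
  have h2 : ((inducedLength (GN τ) : ℕ) : ℝ) ≤ 7 := by exact_mod_cast inducedLength_GN τ
  have h3 : (12 : ℝ) ≤ p := by exact_mod_cast hp12
  have h4 : (7 : ℝ) < ((p : ℝ) ^ 2 + 2 * p) / (2 * p - 1) := by
    rw [lt_div_iff₀ (by linarith)]
    nlinarith
  linarith

end Pool.Agent.Results.MP_641f76_ag.AsymptoticRegularityGin
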