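import Mathlib
import Pool.Agent.Lib.MP_641f76_ag.Defs
import Pool.Agent.Lib.MP_641f76_ag.Bound

/-!
# MP_641f76_ag, Q2 is answered in the negative

There is a labelled graph `G` on `8` vertices with `ℓ_<(G) = 4` such that, over every field,
`reg (in(J_G)^(2m)) ≥ 9 m` for all `m`; hence the asymptotic regularity of the symbolic powers of
`in(J_G)` is at least `9/2` and is not `ℓ_<(G)`.

The graph has the vertices `0, ..., 7` and the edges `01, 06, 07, 17, 24, 25, 26, 35, 57`; the
monomial `w = x_1 x_3 x_5 x_6 x_7 y_0 y_2 y_3 y_4` of degree `9` is such that `w^m` is a minimal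
generator of `in(J_G)^(2m)`.
-/

namespace Pool.Agent.Results.MP_641f76_ag.AsymptoticRegularityIn

open Pool.Agent.Lib.MP_641f76_ag Filter Topology

universe u

/-- **Q2 of MP_641f76_ag is false.** -/
theorem result : ∃ G : SimpleGraph (Fin 8), (∃ i j, G.Adj i j) ∧
    admissibleLength G = 4 ∧
    ∀ (K : Type u) [Field K],
      (∀ m : ℕ, (((9 * m : ℕ) : ℝ) : EReal) ≤
        regularity (symbolicPower (initialIdeal (binomialEdgeIdeal K G)) (2 * m))) ∧
      ¬ Tendsto (fun m : ℕ =>
          regularity (symbolicPower (initialIdeal (binomialEdgeIdeal K G)) m) / ((m : ℝ) : EReal))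
        atTop (𝓝 ((admissibleLength G : ℝ) : EReal)) := by
  refine ⟨G8, ⟨0, 1, by decide⟩, admissibleLength_G8, ?_⟩
  intro K _
  refine ⟨le_regularity_G8 K, ?_⟩
  intro h
  rw [admissibleLength_G8] at h
  have h1 : ∀ᶠ m : ℕ in atTop,
      regularity (symbolicPower (initialIdeal (binomialEdgeIdeal K G8)) m) / ((m : ℝ) : EReal) <
        ((9 / 2 : ℝ) : EReal) := by
    apply h.eventually_lt_const
    rw [EReal.coe_lt_coe_iff]
    norm_num
  obtain ⟨N, hN⟩ := eventually_atTop.mp h1
  have h2 := hN (2 * (N + 1)) (by omega)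
  have h3 := le_regularity_G8 K (N + 1)
  have h4 : ((9 / 2 : ℝ) : EReal) ≤
      regularity (symbolicPower (initialIdeal (binomialEdgeIdeal K G8)) (2 * (N + 1))) /
        (((2 * (N + 1) : ℕ) : ℝ) : EReal) := by
    have hpos : (0 : ℝ) < ((2 * (N + 1) : ℕ) : ℝ) := by positivity
    rw [EReal.le_div_iff_mul_le (by exact_mod_cast hpos) (EReal.coe_ne_top _)]
    refine le_trans (le_of_eq ?_) h3
    rw [← EReal.coe_mul]
    congr 1
    push_cast
    ring
  exact absurd h2 (not_lt.mpr h4)

end Pool.Agent.Results.MP_641f76_ag.AsymptoticRegularityIn
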